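import Pool.Agent.R269.SMInter

/-!
Interlaced subsequences of the basis need not be equivalent.
-/

set_option autoImplicit false

open Pool.Agent.R269.SM

namespace Pool.Agent.Results.MP_7cd5bf_an.InterlacedNotEquiv

/-- For every `n ≥ 1` there are increasing sequences of positive integers with
`i_m < j_{m+1}` and `j_m < i_{m+1}` such that `(e_{i_m})` and `(e_{j_m})` are not equivalent in
the space of order `n`. -/
theorem result : ∀ n : ℕ, 1 ≤ n → ∃ i j : ℕ → ℕ, StrictMono i ∧ StrictMono j ∧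
    (∀ m, 1 ≤ i m) ∧ (∀ m, 1 ≤ j m) ∧ (∀ m, i m < j (m + 1) ∧ j m < i (m + 1)) ∧
    ¬ Equiv n (fun m => e (i m)) (fun m => e (j m)) := by
  intro n hn
  obtain ⟨k, rfl⟩ : ∃ k, n = k + 1 := ⟨n - 1, by omega⟩
  exact interlaced k

end Pool.Agent.Results.MP_7cd5bf_an.InterlacedNotEquiv
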